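import Pool.Agent.Helper65.KG.Goals

/-!
# Project KG (MP_20ee5e_ag), packet SG2: the one-dimensional lemma with equality
-/

set_option autoImplicit false

open MeasureTheory Set

namespace Pool.Agent.Helper70.KG.SG2

open Pool.Agent.Helper65.KG

theorem t : S_SG2 := by
  intro φ b S hS h
  have h1 := (Pool.Agent.Helper70.KN.pSG φ b S hS h).2
  have h2 := (Pool.Agent.Helper70.KN.pSG (fun s => φ (S - s)) (fun s => -b (S - s)) S hS
    (fun s hs s' hs' => by
      have h3 := h (S - s) ⟨by linarith [hs.2], by linarith [hs.1]⟩ (S - s')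
        ⟨by linarith [hs'.2], by linarith [hs'.1]⟩
      have h4 : b (S - s) * (S - s' - (S - s)) = -b (S - s) * (s' - s) := by ring
      rw [h4] at h3
      exact h3)).2
  have h5 : ∫ s in (0 : ℝ)..S, -b (S - s) = -∫ s in (0 : ℝ)..S, b s := by
    rw [intervalIntegral.integral_neg, intervalIntegral.integral_comp_sub_left (fun x => b x) S]
    simp
  rw [h5] at h2
  simp only [sub_self, sub_zero] at h2
  linarith

end Pool.Agent.Helper70.KG.SG2
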